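import Pool.Agent.Work.MP_b5407d_lbm.Interface
import Pool.Agent.Work.MP_b5407d_gt.Main

/-! Block LPN of MP_b5407d_lbm (helper64): the `L_p` inequality with its equality case, for
normalised bodies, from the log inequality. -/

set_option autoImplicit false

open MeasureTheory Set Filter Topology
open scoped ENNReal Pointwise

namespace Pool.LBM.LPN

open Pool.Agent.Work.MP_b5407d_gt (hh hh_pos hh_continuous hh_bound wulff wulff_finite)

/-- the weighted power mean -/
noncomputable def pm (m l a b p : ℝ) : ℝ := (m * a ^ p + l * b ^ p) ^ (1 / p)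

theorem geom_le_pm (m l a b p : ℝ) (hm : 0 < m) (hl : 0 < l) (hml : m + l = 1) (ha : 0 < a)
    (hb : 0 < b) (hp : 0 < p) : a ^ m * b ^ l ≤ pm m l a b p := by
  unfold pm
  have h1 : (a ^ p) ^ m * (b ^ p) ^ l ≤ m * a ^ p + l * b ^ p :=
    Real.geom_mean_le_arith_mean2_weighted hm.le hl.le (by positivity) (by positivity) hml
  have h2 : a ^ m * b ^ l = ((a ^ p) ^ m * (b ^ p) ^ l) ^ (1 / p) := by
    rw [← Real.rpow_mul ha.le, ← Real.rpow_mul hb.le, Real.mul_rpow (by positivity) (by positivity),
      ← Real.rpow_mul ha.le, ← Real.rpow_mul hb.le]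
    congr 2 <;> field_simp
  rw [h2]
  exact Real.rpow_le_rpow (by positivity) h1 (by positivity)

theorem pm_pos (m l a b p : ℝ) (hm : 0 < m) (hl : 0 < l) (ha : 0 < a)
    (hb : 0 < b) : 0 < pm m l a b p := by
  unfold pm; positivity

theorem pm_half_le (m l a b p : ℝ) (hm : 0 < m) (hl : 0 < l) (hml : m + l = 1) (ha : 0 < a)
    (hb : 0 < b) (hp : 0 < p) : pm m l a b (p / 2) ≤ pm m l a b p ∧
    (pm m l a b p ≤ pm m l a b (p / 2) → pm m l a b p = a ∧ a = b) := by
  have ea : a ^ p = (a ^ (p / 2)) ^ 2 := by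
    rw [← Real.rpow_natCast, ← Real.rpow_mul ha.le]; congr 1; push_cast; ring
  have eb : b ^ p = (b ^ (p / 2)) ^ 2 := by
    rw [← Real.rpow_natCast, ← Real.rpow_mul hb.le]; congr 1; push_cast; ring
  have hx : 0 < a ^ (p / 2) := by positivity
  have hy : 0 < b ^ (p / 2) := by positivity
  have h0 : 0 < m * a ^ (p / 2) + l * b ^ (p / 2) := by positivity
  have e1 : pm m l a b (p / 2) = ((m * a ^ (p / 2) + l * b ^ (p / 2)) ^ 2) ^ (1 / p) := by
    unfold pm
    rw [← Real.rpow_natCast, ← Real.rpow_mul h0.le]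
    congr 1
    push_cast; field_simp
  have e2 : pm m l a b p = (m * (a ^ (p / 2)) ^ 2 + l * (b ^ (p / 2)) ^ 2) ^ (1 / p) := by
    unfold pm; rw [ea, eb]
  have hd : m * (a ^ (p / 2)) ^ 2 + l * (b ^ (p / 2)) ^ 2 =
      (m * a ^ (p / 2) + l * b ^ (p / 2)) ^ 2 + m * l * (a ^ (p / 2) - b ^ (p / 2)) ^ 2 := by
    have : l = 1 - m := by linarith
    subst this; ring
  have hip : 0 < 1 / p := by positivity
  constructor
  · rw [e1, e2]
    apply Real.rpow_le_rpow (by positivity) _ hip.le
    rw [hd]
    have : 0 ≤ m * l * (a ^ (p / 2) - b ^ (p / 2)) ^ 2 := by positivity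
    linarith
  · intro h
    rw [e1, e2] at h
    have h3 := (Real.rpow_le_rpow_iff (by positivity) (by positivity) hip).1 h
    rw [hd] at h3
    have h4 : (a ^ (p / 2) - b ^ (p / 2)) ^ 2 = 0 := by
      have h5 : 0 ≤ (a ^ (p / 2) - b ^ (p / 2)) ^ 2 := sq_nonneg _
      have h6 : 0 < m * l := by positivity
      nlinarith
    have h7 : a ^ (p / 2) = b ^ (p / 2) := by
      have := pow_eq_zero_iff (two_ne_zero) |>.1 h4
      linarith
    have hab : a = b := by
      have := congrArg (fun x : ℝ => x ^ (2 / p)) h7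
      rw [← Real.rpow_mul ha.le, ← Real.rpow_mul hb.le] at this
      have e : p / 2 * (2 / p) = 1 := by field_simp
      rw [e, Real.rpow_one, Real.rpow_one] at this
      exact this
    refine ⟨?_, hab⟩
    subst hab
    unfold pm
    rw [← add_mul, hml, one_mul, ← Real.rpow_mul ha.le]
    have e : p * (1 / p) = 1 := by field_simp
    rw [e, Real.rpow_one]

theorem wE_convex (F : E2 → ℝ) : Convex ℝ (wE F) := by
  intro x hx y hy a b ha hb hab u hu
  have h1 := hx u hu
  have h2 := hy u hu
  rw [inner_add_left, inner_smul_left, inner_smul_left]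
  simp only [conj_trivial]
  have h3 : a * inner ℝ x u ≤ a * F u := by gcongr
  have h4 : b * inner ℝ y u ≤ b * F u := by gcongr
  have h5 : a * F u + b * F u = F u := by rw [← add_mul, hab, one_mul]
  linarith

theorem wE_closed (F : E2 → ℝ) : IsClosed (wE F) := by
  have : wE F = ⋂ u ∈ Metric.sphere (0 : E2) 1, {x : E2 | inner ℝ x u ≤ F u} := by
    ext x; simp only [wE, mem_iInter, Set.mem_ofPred_eq]
  rw [this]
  refine isClosed_biInter fun u _ => isClosed_le (by fun_prop) continuous_const

/-- a ball around a point with slack -/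
theorem ball_sub (F : E2 → ℝ) (x : E2) (δ : ℝ) (hδ : 0 < δ)
    (h : ∀ u ∈ Metric.sphere (0 : E2) 1, inner ℝ x u + δ ≤ F u) : x ∈ interior (wE F) := by
  rw [mem_interior]
  refine ⟨Metric.ball x δ, ?_, Metric.isOpen_ball, Metric.mem_ball_self hδ⟩
  intro y hy u hu
  have h1 : (inner ℝ (y - x) u : ℝ) ≤ ‖y - x‖ * ‖u‖ := real_inner_le_norm _ _
  rw [mem_sphere_zero_iff_norm.1 hu, mul_one, inner_sub_left] at h1
  have h2 : ‖y - x‖ < δ := by rwa [Metric.mem_ball, dist_eq_norm] at hy
  linarith [h u hu]

theorem exists_touch (F : E2 → ℝ) (hF : ContinuousOn F (Metric.sphere (0 : E2) 1)) (x : E2)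
    (hx : x ∈ frontier (wE F)) : ∃ u ∈ Metric.sphere (0 : E2) 1, inner ℝ x u = F u := by
  by_contra hne
  push Not at hne
  have hxW : x ∈ wE F := (wE_closed F).frontier_subset hx
  have hlt : ∀ u ∈ Metric.sphere (0 : E2) 1, 0 < F u - inner ℝ x u := fun u hu =>
    sub_pos.2 (lt_of_le_of_ne (hxW u hu) (hne u hu))
  have hc : ContinuousOn (fun u : E2 => F u - inner ℝ x u) (Metric.sphere (0 : E2) 1) :=
    hF.sub (by fun_prop : Continuous fun u : E2 => (inner ℝ x u : ℝ)).continuousOn
  obtain ⟨u0, hu0, hmin⟩ := (isCompact_sphere (0 : E2) 1).exists_isMinOn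
    (NormedSpace.sphere_nonempty.2 zero_le_one) hc
  have h := ball_sub F x (F u0 - inner ℝ x u0) (hlt u0 hu0) (fun u hu => by
    have := hmin hu
    simp only [Set.mem_ofPred_eq] at this
    linarith)
  exact hx.2 h

/-- a closed set of full volume in a convex set with interior points is everything -/
theorem eq_of_volume (A B : Set E2) (hAB : A ⊆ B) (hA : IsClosed A) (hB : Convex ℝ B)
    (hBc : IsClosed B) (hBi : (interior B).Nonempty) (hfin : volume B ≠ ∞)
    (hv : (volume B).toReal ≤ (volume A).toReal) : A = B := by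
  apply Subset.antisymm hAB
  have h1 : B = closure (interior B) := by
    rw [hB.closure_interior_eq_closure_of_nonempty_interior hBi, hBc.closure_eq]
  rw [h1]
  apply hA.closure_subset_iff.2
  intro x hx
  by_contra hxA
  have hO : IsOpen (interior B ∩ Aᶜ) := isOpen_interior.inter hA.isOpen_compl
  have hpos : 0 < volume (interior B ∩ Aᶜ) := hO.measure_pos volume ⟨x, hx, hxA⟩
  have hle : volume A + volume (interior B ∩ Aᶜ) ≤ volume B := by
    rw [← measure_union (disjoint_left.2 fun y hy1 hy2 => hy2.2 hy1) hO.measurableSet]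
    exact measure_mono (union_subset hAB (inter_subset_left.trans interior_subset))
  have hAf : volume A ≠ ∞ := ne_top_of_le_ne_top hfin (measure_mono hAB)
  have h2 : volume B ≤ volume A := (ENNReal.toReal_le_toReal hfin hAf).1 hv
  have h3 : volume A + volume (interior B ∩ Aᶜ) ≤ volume A := hle.trans h2
  have h4 : volume A < volume A + volume (interior B ∩ Aᶜ) := ENNReal.lt_add_right hAf hpos.ne'
  exact absurd h3 (not_le.2 h4)

theorem zero_mem_interior (K : Set E2) (hKk : IsCompact K) (hKc : Convex ℝ K)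
    (hKi : (interior K).Nonempty) (hK0 : (∫ x in K, x) = 0) : (0 : E2) ∈ interior K := by
  by_contra h0
  obtain ⟨f, hf⟩ := geometric_hahn_banach_open_point hKc.interior isOpen_interior h0
  set v : E2 := (InnerProductSpace.toDual ℝ E2).symm f with hv
  have hfv : ∀ y : E2, f y = inner ℝ y v := by
    intro y
    rw [real_inner_comm, hv, InnerProductSpace.toDual_symm_apply]
  have hvn : v ≠ 0 := by
    intro hv0
    obtain ⟨y, hy⟩ := hKi
    have h1 := hf y hy
    rw [hfv, hfv, hv0] at h1
    simp at h1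
  have hvpos : 0 < ‖v‖ := norm_pos_iff.2 hvn
  have hu : ‖‖v‖⁻¹ • v‖ = 1 := by
    rw [norm_smul, norm_inv, norm_norm, inv_mul_cancel₀ hvpos.ne']
  have hp := hh_pos K hKk hKi hK0 _ hu
  have hle : hh K (‖v‖⁻¹ • v) ≤ 0 := by
    apply csSup_le ((hKi.mono interior_subset).image _)
    rintro _ ⟨y, hy, rfl⟩
    have hycl : y ∈ closure (interior K) := by
      rw [hKc.closure_interior_eq_closure_of_nonempty_interior hKi]
      exact subset_closure hy
    have hyv : (inner ℝ y v : ℝ) ≤ 0 := by
      have hcl : IsClosed {z : E2 | (inner ℝ z v : ℝ) ≤ 0} :=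
        isClosed_le (by fun_prop) continuous_const
      have : interior K ⊆ {z : E2 | (inner ℝ z v : ℝ) ≤ 0} := by
        intro z hz
        have := hf z hz
        rw [hfv, hfv, inner_zero_left] at this
        exact this.le
      exact (hcl.closure_subset_iff.2 this) hycl
    simp only
    rw [inner_smul_right]
    exact mul_nonpos_of_nonneg_of_nonpos (by positivity) hyv
  linarith

theorem not_interior_of_touch (K : Set E2) (hKk : IsCompact K) (x u : E2) (hu : ‖u‖ = 1)
    (h : inner ℝ x u = hE K u) : x ∉ interior K := by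
  intro hx
  obtain ⟨ε, hε, hball⟩ := Metric.isOpen_iff.1 isOpen_interior x hx
  have hz : x + (ε / 2) • u ∈ K := by
    apply interior_subset
    apply hball
    rw [Metric.mem_ball, dist_eq_norm, add_sub_cancel_left, norm_smul, hu, mul_one,
      Real.norm_of_nonneg (by positivity)]
    linarith
  have h1 : (inner ℝ (x + (ε / 2) • u) u : ℝ) ≤ hE K u :=
    le_csSup (hKk.image (by fun_prop)).bddAbove
      (mem_image_of_mem (fun y : E2 => (inner ℝ y u : ℝ)) hz)
  rw [inner_add_left, inner_smul_left, real_inner_self_eq_norm_sq, hu, ← h] at h1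
  simp at h1
  linarith

theorem subset_of_frontier (K W : Set E2) (hKc : Convex ℝ K)
    (hKi : (interior K).Nonempty) (hKcl : IsClosed K) (hW : IsClosed W)
    (h0K : (0 : E2) ∈ interior K) (h0W : (0 : E2) ∈ interior W)
    (h : ∀ x ∈ frontier W, x ∉ interior K) : K ⊆ W := by
  have hin : interior K ⊆ W := by
    by_contra hne
    obtain ⟨y, hy, hyW⟩ := not_subset.1 hne
    have hcov : interior K ⊆ interior W ∪ Wᶜ := by
      intro z hz
      by_cases hzW : z ∈ W
      · left
        by_contra hzi
        exact h z ⟨subset_closure hzW, hzi⟩ hz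
      · exact Or.inr hzW
    obtain ⟨z, _, hz1, hz2⟩ := hKc.interior.isPreconnected (interior W) Wᶜ isOpen_interior
      hW.isOpen_compl hcov ⟨0, h0K, h0W⟩ ⟨y, hy, hyW⟩
    exact hz2 (interior_subset hz1)
  have h1 : K = closure (interior K) := by
    rw [hKc.closure_interior_eq_closure_of_nonempty_interior hKi, hKcl.closure_eq]
  rw [h1]
  exact hW.closure_subset_iff.2 hin

end Pool.LBM.LPN

namespace Pool.LBM

open Pool.LBM.LPN

open Pool.Agent.Work.MP_b5407d_gt (hh hh_pos hh_continuous hh_bound wulff wulff_finite)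

theorem blk_LPN : Stmt_LE → Stmt_LPN := by
  intro hLE hPOS p hp K C hKc hKk hKi hCc hCk hCi hK0 hC0 hKv hCv m l hm hl hml
  -- positivity of the support functions
  have hKp : ∀ u ∈ Metric.sphere (0 : E2) 1, 0 < hE K u := fun u hu =>
    hh_pos K hKk hKi hK0 u (mem_sphere_zero_iff_norm.1 hu)
  have hCp : ∀ u ∈ Metric.sphere (0 : E2) 1, 0 < hE C u := fun u hu =>
    hh_pos C hCk hCi hC0 u (mem_sphere_zero_iff_norm.1 hu)
  have hKcont : Continuous (hE K) := hh_continuous K hKk
  have hCcont : Continuous (hE C) := hh_continuous C hCk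
  have hcont : ∀ q : ℝ, 0 < q →
      ContinuousOn (fun u => pm m l (hE K u) (hE C u) q) (Metric.sphere (0 : E2) 1) := by
    intro q hq
    unfold pm
    apply ContinuousOn.rpow_const
    · apply ContinuousOn.add
      · apply ContinuousOn.mul continuousOn_const
        exact hKcont.continuousOn.rpow_const fun u hu => Or.inl (hKp u hu).ne'
      · apply ContinuousOn.mul continuousOn_const
        exact hCcont.continuousOn.rpow_const fun u hu => Or.inl (hCp u hu).ne'
    · intro u hu
      left
      have h1 := hKp u hu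
      have h2 := hCp u hu
      positivity
  have hfin : ∀ q : ℝ, 0 < q →
      volume (wE fun u => pm m l (hE K u) (hE C u) q) ≠ ∞ := by
    intro q hq
    obtain ⟨R, hR⟩ := ((isCompact_sphere (0 : E2) 1).image_of_continuousOn
      (hcont q hq)).bddAbove
    refine wulff_finite _ (max R 0) (le_max_right _ _) fun u hu => ?_
    exact (hR (mem_image_of_mem _ hu)).trans (le_max_left _ _)
  -- the inequality
  have hge : ∀ q : ℝ, 0 < q →
      1 ≤ (volume (wE fun u => pm m l (hE K u) (hE C u) q)).toReal := by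
    intro q hq
    have h1 := hLE hPOS K C hKc hKk hKi hCc hCk hCi hK0 hC0 l ⟨hl.le, by linarith⟩
    rw [hKv, hCv, Real.one_rpow, Real.one_rpow, mul_one] at h1
    refine h1.trans (ENNReal.toReal_mono (hfin q hq) (measure_mono ?_))
    intro x hx u hu
    have h2 := hx u hu
    have h3 : (1 : ℝ) - l = m := by linarith
    rw [h3] at h2
    exact h2.trans (geom_le_pm m l _ _ q hm hl hml (hKp u hu) (hCp u hu) hq)
  refine ⟨hge p hp, fun hvol => ?_⟩
  change (volume (wE fun u => pm m l (hE K u) (hE C u) p)).toReal = 1 at hvol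
  set W : Set E2 := wE fun u => pm m l (hE K u) (hE C u) p with hW
  set W' : Set E2 := wE fun u => pm m l (hE K u) (hE C u) (p / 2) with hW'
  have hp2 : 0 < p / 2 := by positivity
  have hsub : W' ⊆ W := by
    intro x hx u hu
    exact (hx u hu).trans (pm_half_le m l _ _ p hm hl hml (hKp u hu) (hCp u hu) hp).1
  have h0W : (0 : E2) ∈ interior W := by
    obtain ⟨u0, hu0, hmin⟩ := (isCompact_sphere (0 : E2) 1).exists_isMinOn
      (NormedSpace.sphere_nonempty.2 zero_le_one) (hcont p hp)
    refine ball_sub _ 0 (pm m l (hE K u0) (hE C u0) p)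
      (pm_pos m l _ _ p hm hl (hKp u0 hu0) (hCp u0 hu0)) fun u hu => ?_
    have := hmin hu
    simp only [Set.mem_ofPred_eq] at this
    rw [inner_zero_left, zero_add]
    exact this
  have hWi : (interior W).Nonempty := ⟨0, h0W⟩
  have heq : W' = W := by
    refine eq_of_volume W' W hsub (wE_closed _) (wE_convex _) (wE_closed _) hWi (hfin p hp) ?_
    rw [hvol]
    exact hge (p / 2) hp2
  -- touching points
  have htouch : ∀ x ∈ frontier W, ∃ u ∈ Metric.sphere (0 : E2) 1,
      inner ℝ x u = hE K u ∧ inner ℝ x u = hE C u := by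
    intro x hx
    obtain ⟨u, hu, hxu⟩ := exists_touch _ (hcont p hp) x hx
    have hxW : x ∈ W' := by
      rw [heq]; exact (wE_closed _).frontier_subset hx
    have h1 := hxW u hu
    rw [hxu] at h1
    obtain ⟨h2, h3⟩ := (pm_half_le m l _ _ p hm hl hml (hKp u hu) (hCp u hu) hp).2 h1
    refine ⟨u, hu, ?_, ?_⟩
    · rw [hxu]; exact h2
    · rw [hxu]; exact h2.trans h3
  have h0K := zero_mem_interior K hKk hKc hKi hK0
  have h0C := zero_mem_interior C hCk hCc hCi hC0
  have hKW : K ⊆ W := subset_of_frontier K W hKc hKi hKk.isClosed (wE_closed _) h0K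
    h0W fun x hx => by
      obtain ⟨u, hu, h1, _⟩ := htouch x hx
      exact not_interior_of_touch K hKk x u (mem_sphere_zero_iff_norm.1 hu) h1
  have hCW : C ⊆ W := subset_of_frontier C W hCc hCi hCk.isClosed (wE_closed _) h0C
    h0W fun x hx => by
      obtain ⟨u, hu, _, h1⟩ := htouch x hx
      exact not_interior_of_touch C hCk x u (mem_sphere_zero_iff_norm.1 hu) h1
  have e1 : K = W := eq_of_volume K W hKW hKk.isClosed (wE_convex _) (wE_closed _) hWi
    (hfin p hp) (by rw [hvol, hKv])
  have e2 : C = W := eq_of_volume C W hCW hCk.isClosed (wE_convex _) (wE_closed _) hWi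
    (hfin p hp) (by rw [hvol, hCv])
  rw [e1, e2]

end Pool.LBM
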